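import Pool.Agent.H73.GWT.Stmts

/-! Project GWT, row AL1 (local to global). -/

set_option autoImplicit false

namespace GWT

theorem AL1 (G V : Type*) [Group G] [MulAction G V] : AL1Stmt G V := by
  intro T hT act o a b ℓ hℓ ha hb hab l
  have ds : ∀ (g : G) (u v : V), T.dist (g • u) (g • v) = T.dist u v :=
    fun g u v => GWP.dist_smul' act hT g u v
  have hx : ∀ x ∈ ({a, b} : Set G), T.dist o (x • o) = ℓ := by
    intro x hx
    rcases hx with rfl | hx
    · exact ha
    · rw [Set.mem_singleton_iff] at hx
      rw [hx]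
      exact hb
  have hxi : ∀ x ∈ ({a, b} : Set G), T.dist (x⁻¹ • o) o = ℓ := by
    intro x h
    rw [← ds x (x⁻¹ • o) o, smul_inv_smul]
    exact hx x h
  induction l with
  | nil =>
    refine ⟨?_, ?_⟩
    · simp [prw]
    · intro x h
      simp only [prw, List.map_nil, List.prod_nil, one_smul, List.length_nil]
      rw [hxi x h]
      omega
  | cons y l ih =>
    obtain ⟨ih1, ih2⟩ := ih
    obtain ⟨c, hc⟩ : ∃ c : G, c = (if y then b else a) := ⟨_, rfl⟩
    have hcm : c ∈ ({a, b} : Set G) := by
      rw [hc]
      cases y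
      · left; rfl
      · right; rfl
    have hp : prw a b (y :: l) = c * prw a b l := by
      rw [hc]
      simp [prw]
    rw [hp, mul_smul]
    obtain ⟨z, hz⟩ : ∃ z : V, z = prw a b l • o := ⟨_, rfl⟩
    rw [← hz] at ih1 ih2 ⊢
    have e1 : T.dist o (c • z) = (l.length + 1) * ℓ := by
      rw [← ih2 c hcm, ← ds c (c⁻¹ • o) z, smul_inv_smul]
    refine ⟨by rw [e1, List.length_cons], ?_⟩
    intro x h
    have b1 : Bt T (x⁻¹ • o) o (c • o) := by
      unfold Bt
      rw [hxi x h, hx c hcm, hab x h c hcm]
      omega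
    have b2 : Bt T o (c • o) (c • z) := by
      unfold Bt
      rw [hx c hcm, ds c o z, ih1, e1]
      ring
    have hne : o ≠ c • o := by
      intro he
      have := hx c hcm
      rw [← he, SimpleGraph.dist_self] at this
      omega
    have b3 := (CAT hT b1 b2 hne).2
    unfold Bt at b3
    rw [hxi x h, e1] at b3
    rw [← b3, List.length_cons]
    ring

end GWT
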