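import Pool.Agent.H73.GWT.Stmts

/-! Project GWT, row AL2 (patterns are different). -/

set_option autoImplicit false

namespace GWT

theorem AL2 (G V : Type*) [Group G] [MulAction G V] (h1 : AL1Stmt G V) : AL2Stmt G V := by
  intro T hT act o a b ℓ hℓ ha hb hab hno l
  have ds : ∀ (g : G) (u v : V), T.dist (g • u) (g • v) = T.dist u v :=
    fun g u v => GWP.dist_smul' act hT g u v
  have hx : ∀ x ∈ ({a, b} : Set G), T.dist o (x • o) = ℓ := by
    intro x hx
    rcases hx with rfl | hx
    · exact ha
    · rw [Set.mem_singleton_iff] at hx
      rw [hx]
      exact hb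
  have AL := h1 T hT act o a b ℓ hℓ ha hb hab
  induction l with
  | nil =>
    intro l' hl' g _ _
    rw [List.length_nil] at hl'
    exact (List.length_eq_zero_iff.mp hl'.symm).symm
  | cons y l ih =>
    intro l' hl' g hg hgl
    cases l' with
    | nil => simp at hl'
    | cons y' l' =>
      rw [List.length_cons, List.length_cons] at hl'
      have hll : l.length = l'.length := by omega
      obtain ⟨c, hc⟩ : ∃ c : G, c = (if y then b else a) := ⟨_, rfl⟩
      obtain ⟨c', hc'⟩ : ∃ c' : G, c' = (if y' then b else a) := ⟨_, rfl⟩
      have hcm : c ∈ ({a, b} : Set G) := by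
        rw [hc]
        cases y
        · left; rfl
        · right; rfl
      have hcm' : c' ∈ ({a, b} : Set G) := by
        rw [hc']
        cases y'
        · left; rfl
        · right; rfl
      have hp : prw a b (y :: l) = c * prw a b l := by
        rw [hc]
        simp [prw]
      have hp' : prw a b (y' :: l') = c' * prw a b l' := by
        rw [hc']
        simp [prw]
      have e := (AL (y :: l)).1
      have e' := (AL (y' :: l')).1
      rw [List.length_cons] at e e'
      have f := (AL l).1
      have f' := (AL l').1
      rw [hp] at e hgl
      rw [hp'] at e' hgl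
      rw [mul_smul] at e e'
      rw [mul_smul, mul_smul] at hgl
      obtain ⟨z, hz⟩ : ∃ z : V, z = prw a b l • o := ⟨_, rfl⟩
      obtain ⟨z', hz'⟩ : ∃ z' : V, z' = prw a b l' • o := ⟨_, rfl⟩
      rw [← hz] at e f hgl
      rw [← hz'] at e' f' hgl
      -- both `g c o` and `c' o` are the vertex of `[o, c' z']` at distance `ℓ`
      have B' : Bt T o (c' • o) (c' • z') := by
        unfold Bt
        rw [hx c' hcm', ds c' o z', f', e']
        ring
      have B : Bt T o (c • o) (c • z) := by
        unfold Bt
        rw [hx c hcm, ds c o z, f, e]
        ring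
      have B2 : Bt T o (g • c • o) (c' • z') := by
        rw [← hgl]
        have : Bt T (g • o) (g • c • o) (g • c • z) := by
          unfold Bt at B ⊢
          rw [ds g o (c • o), ds g (c • o) (c • z), ds g o (c • z)]
          exact B
        rw [hg] at this
        exact this
      have hd : T.dist o (g • c • o) = T.dist o (c' • o) := by
        have : T.dist (g • o) (g • c • o) = T.dist o (c • o) := ds _ _ _
        rw [hg] at this
        rw [this, hx c hcm, hx c' hcm']
      have hU : g • c • o = c' • o := UNQ hT B2 B' hd
      have hyy : y = y' := by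
        cases y <;> cases y'
        · rfl
        · exfalso
          apply hno g hg
          simpa [hc, hc'] using hU
        · exfalso
          apply hno g⁻¹ (inv_smul_eq_iff.mpr hg.symm)
          rw [inv_smul_eq_iff]
          simpa [hc, hc'] using hU.symm
        · rfl
      subst hyy
      have hcc : c = c' := by rw [hc, hc']
      subst hcc
      have h2 := ih l' hll (c⁻¹ * g * c) (by
        rw [mul_smul, mul_smul, hU, inv_smul_smul]) (by
        rw [← hz, ← hz', mul_smul, mul_smul, hgl, inv_smul_smul])
      rw [h2]

end GWT
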