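import Pool.Agent.H73.GWT.Stmts

/-! Project GWT, row CT2 (blocks comparable with a given element are rare). -/

set_option autoImplicit false

open Classical

namespace GWT

variable {ι G V : Type*} [Fintype ι] [Group G] [MulAction G V] (C : Code ι G V)

theorem CT2 (S : Type*) [Fintype S] : CT2Stmt C S := by
  intro e L θ B hB hyp x
  obtain ⟨N, hN⟩ : ∃ N : ℕ, N = C.d C.o (x • C.o) := ⟨_, rfl⟩
  have hex : ∀ i : ℕ, ∃ m : V, i ≤ N → (C.d C.o m = i ∧ Bt C.T C.o m (x • C.o)) := by
    intro i
    by_cases hi : i ≤ N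
    · obtain ⟨m, h1, h2⟩ := EXI C.tree C.o (x • C.o) i (by rw [hN] at hi; exact hi)
      exact ⟨m, fun _ => ⟨h1, h2⟩⟩
    · exact ⟨C.o, fun h => absurd h hi⟩
  choose v hv using hex
  have hpt : ∀ P : V, Bt C.T C.o P (x • C.o) → ∃ i ∈ Finset.range (N + 1), P = v i := by
    intro P hP
    have hle : C.d C.o P ≤ N := by
      rw [hN]
      have hP' : C.T.dist C.o P + C.T.dist P (x • C.o) = C.T.dist C.o (x • C.o) := hP
      show C.T.dist C.o P ≤ C.T.dist C.o (x • C.o)
      omega
    refine ⟨C.d C.o P, Finset.mem_range.mpr (by omega), ?_⟩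
    obtain ⟨h1, h2⟩ := hv _ hle
    exact UNQ C.tree hP h2 h1.symm
  obtain ⟨ind, hind⟩ : ∃ ind : V → V → List S → ℝ, ind = fun Q P b => if ∃ g : G,
        C.d (g • C.o) Q + C.d Q P + C.d P (g • GWP.ev e b • C.o) = C.d C.o (GWP.ev e b • C.o)
        then (1 : ℝ) else 0 := ⟨_, rfl⟩
  have hind0 : ∀ Q P b, 0 ≤ ind Q P b := by
    intro Q P b
    rw [hind]
    dsimp only
    split_ifs
    · exact zero_le_one
    · exact le_rfl
  obtain ⟨F, hF⟩ : ∃ F : ℕ → ℕ → List S → ℝ, F = fun i j b =>
      if θ ≤ C.d (v j) (v i) then ind (v j) (v i) b else 0 := ⟨_, rfl⟩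
  have hF0 : ∀ i j b, 0 ≤ F i j b := by
    intro i j b
    rw [hF]
    dsimp only
    split_ifs
    · exact hind0 _ _ _
    · exact le_rfl
  have hwF : ∀ i j, GWP.wsum L (F i j) ≤ B := by
    intro i j
    rw [hF]
    by_cases h : θ ≤ C.d (v j) (v i)
    · have h1 := hyp (v j) (v i) h
      refine le_trans (GWP.wsum_le L _ _ ?_) h1
      intro b _
      dsimp only
      rw [if_pos h, hind]
    · refine le_trans (GWP.wsum_le L _ (fun _ => (0 : ℝ)) ?_) ?_
      · intro b _
        dsimp only
        rw [if_neg h]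
      · rw [GWP.wsum_const, zero_mul]
        exact hB
  have hmain : GWP.wsum L (fun b : List S => if Cmp C θ x (GWP.ev e b) then (1 : ℝ) else 0) ≤
      GWP.wsum L (fun b : List S => ∑ i ∈ Finset.range (N + 1), ∑ j ∈ Finset.range (N + 1),
        F i j b) := by
    refine GWP.wsum_le L _ _ ?_
    intro b _
    by_cases hc : Cmp C θ x (GWP.ev e b)
    · rw [if_pos hc]
      obtain ⟨g, P, Q, h1, h2, h3⟩ := hc
      have h2' : C.T.dist C.o P + C.T.dist P Q + C.T.dist Q (x • C.o) =
        C.T.dist C.o (x • C.o) := h2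
      have t1 := dtri C.tree P Q (x • C.o)
      have t2 := dtri C.tree C.o P (x • C.o)
      have t3 := dtri C.tree C.o P Q
      have t4 := dtri C.tree C.o Q (x • C.o)
      have BP : Bt C.T C.o P (x • C.o) := by
        unfold Bt
        omega
      have BQ : Bt C.T C.o Q (x • C.o) := by
        unfold Bt
        omega
      obtain ⟨i, hi, hPi⟩ := hpt P BP
      obtain ⟨j, hj, hQj⟩ := hpt Q BQ
      have hFij : F i j b = 1 := by
        rw [hF]
        dsimp only
        rw [← hPi, ← hQj, if_pos (show θ ≤ C.T.dist Q P by rw [dcomm Q P]; exact h1), hind]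
        dsimp only
        rw [if_pos ⟨g, h3⟩]
      calc (1 : ℝ) = F i j b := hFij.symm
        _ ≤ ∑ j ∈ Finset.range (N + 1), F i j b :=
            Finset.single_le_sum (f := fun j => F i j b) (fun j _ => hF0 i j b) hj
        _ ≤ ∑ i ∈ Finset.range (N + 1), ∑ j ∈ Finset.range (N + 1), F i j b :=
            Finset.single_le_sum (f := fun i => ∑ j ∈ Finset.range (N + 1), F i j b)
              (fun i _ => Finset.sum_nonneg (fun j _ => hF0 i j b)) hi
    · rw [if_neg hc]
      exact Finset.sum_nonneg (fun i _ => Finset.sum_nonneg (fun j _ => hF0 i j b))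
  refine le_trans hmain ?_
  rw [GWP.wsum_finset]
  have h2 : ∀ i ∈ Finset.range (N + 1),
      GWP.wsum L (fun b : List S => ∑ j ∈ Finset.range (N + 1), F i j b) ≤ ((N : ℝ) + 1) * B := by
    intro i _
    rw [GWP.wsum_finset]
    refine le_trans (Finset.sum_le_sum (fun j _ => hwF i j)) ?_
    rw [Finset.sum_const, Finset.card_range, nsmul_eq_mul]
    push_cast
    exact le_rfl
  refine le_trans (Finset.sum_le_sum h2) ?_
  rw [Finset.sum_const, Finset.card_range, nsmul_eq_mul, ← hN]
  push_cast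
  nlinarith

end GWT
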